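import Mathlib

set_option autoImplicit false

namespace Pool.Agent.H.MP_a3c043_al

def msk : List ℕ := [51130476, 85217460, 6391323, 76695941, 42608966, 10652355, 72434993, 38348074,
  19174104, 102243620, 25584324, 21324344, 12804867, 70294673, 36215882, 101146916, 26777796,
  22582328, 14191875, 69681809, 36119114, 30957860, 103160004, 103093304, 102960387, 30458513,
  29925962]

/-- collinearity in the generalized quadrangle with 27 points and 45 lines -/
def adj (p q : Fin 27) : Bool := (msk.getD p 0).testBit q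

def gl : List (List (Fin 27)) := [[0, 1, 5, 6, 7, 2, 3, 4, 8, 9, 11, 10, 12, 13, 14, 15, 17, 16, 18, 19, 20, 21, 23, 22, 24, 25, 26], [0, 8, 6, 5, 4, 3, 2, 7, 1, 14, 10, 11, 12, 13, 9, 20, 16, 17, 18, 19, 15, 26, 22, 23, 24, 25, 21], [0, 1, 2, 3, 4, 5, 6, 7, 8, 9, 10, 11, 12, 13, 14, 21, 22, 23, 24, 25, 26, 15, 16, 17, 18, 19, 20], [0, 1, 2, 3, 4, 12, 13, 14, 11, 9, 10, 8, 5, 6, 7, 22, 21, 17, 18, 19, 20, 16, 15, 23, 24, 25, 26], [0, 1, 2, 3, 4, 5, 6, 7, 8, 21, 22, 23, 24, 25, 26, 15, 16, 17, 18, 19, 20, 9, 10, 11, 12, 13, 14], [1, 0, 2, 4, 3, 5, 7, 6, 8, 9, 10, 11, 12, 14, 13, 15, 16, 17, 18, 20, 19, 21, 22, 23, 24, 26, 25]]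

def gen (j : Fin 6) (p : Fin 27) : Fin 27 := (gl.getD j []).getD p 0

def act (w : List (Fin 6)) (p : Fin 27) : Fin 27 := w.foldl (fun x j => gen j x) p

def W1 : List (List (Fin 6)) := [[], [5], [1, 5, 3, 4, 1, 3, 2, 4, 0, 3, 1, 5], [5, 0, 3, 4, 1, 3, 2, 4, 0, 3, 1, 5], [0, 3, 4, 1, 3, 2, 4, 0, 3, 1, 5], [1, 5, 0, 3, 4, 1, 3, 2, 4, 0, 3, 1, 5], [5, 3, 4, 1, 3, 2, 4, 0, 3, 1, 5], [3, 4, 1, 3, 2, 4, 0, 3, 1, 5], [1, 5], [4, 3, 2, 4, 0, 3, 1, 5], [0, 3, 1, 5], [3, 1, 5], [3, 1, 5, 0, 3, 4, 1, 3, 2, 4, 0, 3, 1, 5], [5, 4, 1, 3, 2, 4, 0, 3, 1, 5], [4, 1, 3, 2, 4, 0, 3, 1, 5], [3, 4, 0, 3, 1, 5], [2, 4, 0, 3, 1, 5], [2, 4, 3, 1, 5], [2, 4, 3, 1, 5, 0, 3, 4, 1, 3, 2, 4, 0, 3, 1, 5], [5, 1, 3, 4, 0, 3, 1, 5], [1, 3, 4, 0, 3, 1, 5], [3, 2, 4, 0, 3, 1, 5], [4, 0, 3, 1, 5], [4, 3, 1, 5], [4, 3, 1, 5, 0, 3, 4, 1, 3, 2, 4, 0, 3, 1, 5], [5, 1, 3, 2, 4, 0, 3, 1, 5], [1, 3, 2, 4, 0, 3, 1, 5]]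

def W2 : List (List (Fin 6)) := [[], [], [], [1, 0], [0, 3, 4, 1, 3, 2, 4, 0, 3, 1], [0], [1], [3, 4, 1, 3, 2, 4, 0, 3, 1], [1], [4, 3, 2, 4, 0, 3, 1], [0, 3, 1], [3, 1], [3, 0], [3, 1], [4, 1, 3, 2, 4, 0, 3, 1], [3, 4, 0, 3, 1], [2, 4, 0, 3, 1], [2, 4, 3, 1], [2, 4, 3, 0], [2, 4, 3, 1], [1, 3, 4, 0, 3, 1], [3, 2, 4, 0, 3, 1], [4, 0, 3, 1], [4, 3, 1], [4, 3, 0], [4, 3, 1], [1, 3, 2, 4, 0, 3, 1]]

def wd (p q : Fin 27) : List (Fin 6) := W1.getD p [] ++ W2.getD (act (W1.getD p []) q) []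

def ty (p q : Fin 27) : Fin 27 := if p = q then 0 else if adj p q then 2 else 1

theorem gen_inv : ∀ j p, gen j (gen j p) = p := by decide +kernel
theorem gen_adj : ∀ j p q, adj (gen j p) (gen j q) = adj p q := by decide +kernel
theorem wd_ok : ∀ p q, act (wd p q) p = 0 ∧ act (wd p q) q = ty p q := by decide +kernel
theorem tri_ty : ∀ a b, adj a b = true → ∀ c, adj a c = true → adj b c = true → ∀ q,
    ((q = a ∨ q = b ∨ q = c) ∧ (ty a q, ty b q, ty c q) ∈ [(0, 2, 2), (2, 0, 2), (2, 2, 0)]) ∨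
    (¬ (q = a ∨ q = b ∨ q = c) ∧ (ty a q, ty b q, ty c q) ∈ [(2, 1, 1), (1, 2, 1), (1, 1, 2)]) := by
  decide +kernel

def G : Subgroup (Equiv.Perm (Fin 27)) where
  carrier := {g | ∀ p q, adj (g p) (g q) = adj p q}
  one_mem' := fun _ _ => rfl
  mul_mem' := fun {a b} ha hb p q => (ha _ _).trans (hb p q)
  inv_mem' := fun {a} ha p q => by simpa using (ha (a⁻¹ p) (a⁻¹ q)).symm

theorem act_mem (w : List (Fin 6)) : ∃ g ∈ G, ∀ p, g p = act w p := by
  induction w with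
  | nil => exact ⟨1, one_mem _, fun _ => rfl⟩
  | cons j w ih =>
    obtain ⟨g, hg, h⟩ := ih
    exact ⟨g * Function.Involutive.toPerm _ (gen_inv j), mul_mem hg (gen_adj j), fun p => h _⟩

theorem core : ∀ m ∈ [(1 : ℤ), 2], ∀ x0 ∈ [(0 : ℤ), 1], ∀ x1 ∈ [(0 : ℤ), 1], ∀ x2 ∈ [(0 : ℤ), 1],
    ∀ x5 ∈ [(0 : ℤ), 1], ∀ x9 ∈ [(0 : ℤ), 1], ∀ x15 ∈ [(0 : ℤ), 1],
    let x3 := m - x0 - x2
    let x6 := m - x0 - x5
    let x4 := m - x1 - x2
    let x7 := m - x1 - x5
    let x10 := m - x2 - x9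
    let x16 := m - x2 - x15
    let x8 := m - x3 - x7
    let x11 := m - x5 - x9
    let x17 := m - x5 - x15
    let x14 := m - x6 - x10
    let x20 := m - x6 - x16
    let x13 := m - x7 - x10
    let x19 := m - x7 - x16
    let x12 := m - x8 - x9
    let x18 := m - x8 - x15
    let x26 := m - x9 - x19
    let x25 := m - x9 - x20
    let x24 := m - x10 - x17
    let x23 := m - x10 - x18
    let x22 := m - x11 - x18
    let x21 := m - x13 - x20
    ¬ ∀ y ∈ [x3, x6, x4, x7, x10, x16, x8, x11, x17, x14, x20, x13, x19, x12, x18, x26, x25, x24, x23, x22, x21], y = 0 ∨ y = 1 := by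
  decide +kernel

theorem l1 {a b c m : ℤ} (ha : a = 0 ∨ a = 1) (hb : b = 0 ∨ b = 1) (hc : c = 0 ∨ c = 1)
    (e : a + b + c = m) : (¬ (m = 0 ∨ m = 3) → m ∈ [(1 : ℤ), 2]) ∧ (m = 0 → a = 0) ∧
      (m = 3 → a = 1) := by
  simp only [List.mem_cons, List.not_mem_nil, or_false]
  omega

theorem l2 {a b c m : ℤ} (e : a + b + c = m) :
    m - a - b = c ∧ m - a - c = b ∧ m - b - c = a := by omega

theorem noov (x : Fin 27 → ℤ) (h : ∀ i, x i = 0 ∨ x i = 1) (m : ℤ)
    (H : ∀ a b c, adj a b = true → adj a c = true → adj b c = true → x a + x b + x c = m) :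
    (∀ i, x i = 0) ∨ ∀ i, x i = 1 := by
  have e3 : m - x 0 - x 2 = x 3 :=
    (l2 (H 0 2 3 (by decide) (by decide) (by decide))).1
  have e6 : m - x 0 - x 5 = x 6 :=
    (l2 (H 0 5 6 (by decide) (by decide) (by decide))).1
  have e4 : m - x 1 - x 2 = x 4 :=
    (l2 (H 1 2 4 (by decide) (by decide) (by decide))).1
  have e7 : m - x 1 - x 5 = x 7 :=
    (l2 (H 1 5 7 (by decide) (by decide) (by decide))).1
  have e10 : m - x 2 - x 9 = x 10 :=
    (l2 (H 2 9 10 (by decide) (by decide) (by decide))).1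
  have e16 : m - x 2 - x 15 = x 16 :=
    (l2 (H 2 15 16 (by decide) (by decide) (by decide))).1
  have e8 : m - x 3 - x 7 = x 8 :=
    (l2 (H 3 7 8 (by decide) (by decide) (by decide))).1
  have e11 : m - x 5 - x 9 = x 11 :=
    (l2 (H 5 9 11 (by decide) (by decide) (by decide))).1
  have e17 : m - x 5 - x 15 = x 17 :=
    (l2 (H 5 15 17 (by decide) (by decide) (by decide))).1
  have e14 : m - x 6 - x 10 = x 14 :=
    (l2 (H 6 10 14 (by decide) (by decide) (by decide))).1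
  have e20 : m - x 6 - x 16 = x 20 :=
    (l2 (H 6 16 20 (by decide) (by decide) (by decide))).1
  have e13 : m - x 7 - x 10 = x 13 :=
    (l2 (H 7 10 13 (by decide) (by decide) (by decide))).1
  have e19 : m - x 7 - x 16 = x 19 :=
    (l2 (H 7 16 19 (by decide) (by decide) (by decide))).1
  have e12 : m - x 8 - x 9 = x 12 :=
    (l2 (H 8 9 12 (by decide) (by decide) (by decide))).1
  have e18 : m - x 8 - x 15 = x 18 :=
    (l2 (H 8 15 18 (by decide) (by decide) (by decide))).1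
  have e26 : m - x 9 - x 19 = x 26 :=
    (l2 (H 9 19 26 (by decide) (by decide) (by decide))).1
  have e25 : m - x 9 - x 20 = x 25 :=
    (l2 (H 9 20 25 (by decide) (by decide) (by decide))).1
  have e24 : m - x 10 - x 17 = x 24 :=
    (l2 (H 10 17 24 (by decide) (by decide) (by decide))).1
  have e23 : m - x 10 - x 18 = x 23 :=
    (l2 (H 10 18 23 (by decide) (by decide) (by decide))).1
  have e22 : m - x 11 - x 18 = x 22 :=
    (l2 (H 11 18 22 (by decide) (by decide) (by decide))).1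
  have e21 : m - x 13 - x 20 = x 21 :=
    (l2 (H 13 20 21 (by decide) (by decide) (by decide))).1
  have hm : m = 0 ∨ m = 3 := by
    by_contra hn
    have h' : ∀ i, x i ∈ [(0 : ℤ), 1] := fun i => by simpa using h i
    refine core m ?_ _ (h' 0) _ (h' 1) _ (h' 2) _ (h' 5) _ (h' 9) _ (h' 15) ?_
    · exact (l1 (h 0) (h 2) (h 3) (H 0 2 3 (by decide) (by decide) (by decide))).1 hn
    · simp only [e3, e6, e4, e7, e10, e16, e8, e11, e17, e14, e20, e13, e19, e12, e18, e26, e25, e24, e23, e22, e21, List.forall_mem_cons, h, true_and]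
      simp
  have hl : ∀ i, ∃ b c, adj i b = true ∧ adj i c = true ∧ adj b c = true := by decide +kernel
  refine hm.imp (fun e i => ?_) fun e i => ?_ <;> obtain ⟨b, c, h1, h2, h3⟩ := hl i
  · exact (l1 (h i) (h b) (h c) (H _ _ _ h1 h2 h3)).2.1 e
  · exact (l1 (h i) (h b) (h c) (H _ _ _ h1 h2 h3)).2.2 e

theorem sep (A B : Finset (Fin 27)) (k : ℕ) (H : ∀ g ∈ G, (A ∩ B.image g).card = k) :
    (A = ∅ ∨ A = Finset.univ) ∨ (B = ∅ ∨ B = Finset.univ) := by
  classical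
  let f : Fin 27 → ℤ := fun p => if p ∈ A then 1 else 0
  let h : Fin 27 → ℤ := fun p => if p ∈ B then 1 else 0
  have fin : ∀ (C : Finset (Fin 27)) (m : ℤ), (∀ a b c, adj a b = true → adj a c = true →
      adj b c = true → ((if a ∈ C then 1 else 0) + (if b ∈ C then 1 else 0) +
        if c ∈ C then 1 else 0 : ℤ) = m) → C = ∅ ∨ C = Finset.univ := fun C m hC =>
    (noov (fun p => if p ∈ C then 1 else 0) (fun i => by by_cases h : i ∈ C <;> simp [h]) m hC).imp
      (fun h => Finset.eq_empty_of_forall_notMem fun i hi => by simpa [hi] using h i)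
      fun h => Finset.eq_univ_of_forall fun i => by simpa using h i
  have H' : ∀ g : G, ∑ q, f (g.1 q) * h q = k := fun g => by
    rw [← H g g.2, ← Finset.card_image_of_injective _ g.1⁻¹.injective, Finset.card_eq_sum_ones,
      Nat.cast_sum, ← Finset.sum_subset (Finset.subset_univ _)]
    · refine Finset.sum_congr rfl fun q hq => ?_
      simp only [Finset.mem_image, Finset.mem_inter] at hq
      obtain ⟨_, ⟨h1, r, h2, rfl⟩, rfl⟩ := hq
      simp [f, h, h1, h2]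
    · intro q _ hq
      by_cases h1 : g.1 q ∈ A
      · have : q ∉ B := fun h2 => hq (Finset.mem_image.2 ⟨g.1 q, Finset.mem_inter.2
          ⟨h1, Finset.mem_image_of_mem _ h2⟩, by simp⟩)
        simp [h, this]
      · simp [f, h1]
  let S : Fin 27 → Fin 27 → ℤ := fun p q => ∑ g : G, f (g.1 p) * f (g.1 q)
  have hS : ∀ p q, S p q = S 0 (ty p q) := fun p q => by
    obtain ⟨g, hg, e⟩ := act_mem (wd p q)
    rw [← (wd_ok p q).1, ← (wd_ok p q).2, ← e, ← e]
    exact (Equiv.sum_comp (Equiv.mulRight (⟨g, hg⟩ : G)) fun g : G => f (g.1 p) * f (g.1 q)).symm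
  have hT : ∀ a b c, adj a b = true → adj a c = true → adj b c = true → ∀ q,
      S a q + S b q + S c q = S 0 2 + 2 * S 0 1 + (S 0 0 + S 0 2 - 2 * S 0 1) *
        if q = a ∨ q = b ∨ q = c then 1 else 0 := by
    intro a b c h1 h2 h3 q
    rw [hS a, hS b, hS c]
    rcases tri_ty a b h1 c h2 h3 q with ⟨h4, h5⟩ | ⟨h4, h5⟩ <;>
      simp only [List.mem_cons, Prod.mk.injEq, List.not_mem_nil, or_false] at h5 <;>
      rcases h5 with ⟨e1, e2, e3⟩ | ⟨e1, e2, e3⟩ | ⟨e1, e2, e3⟩ <;> rw [e1, e2, e3] <;>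
      simp only [h4, if_true, if_false] <;> ring
  by_cases hl : S 0 0 + S 0 2 - 2 * S 0 1 = 0
  · refine Or.inl (fin A (f 0 + f 2 + f 3) fun a b c h1 h2 h3 => ?_)
    have h0 := hT 0 2 3 (by decide) (by decide) (by decide)
    have h4 := hT a b c h1 h2 h3
    simp only [hl, zero_mul, add_zero] at h0 h4
    have : ∑ g : G, (f (g.1 a) + f (g.1 b) + f (g.1 c) - (f (g.1 0) + f (g.1 2) + f (g.1 3))) ^ 2
        = 0 := by
      have e : ∀ g : G, (f (g.1 a) + f (g.1 b) + f (g.1 c) - (f (g.1 0) + f (g.1 2) + f (g.1 3))) ^ 2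
          = (fun u : Fin 27 → Fin 27 → ℤ => (u a a + u b a + u c a) + (u a b + u b b + u c b) +
            (u a c + u b c + u c c) - 2 * ((u a 0 + u b 0 + u c 0) + (u a 2 + u b 2 + u c 2) +
            (u a 3 + u b 3 + u c 3)) + ((u 0 0 + u 2 0 + u 3 0) + (u 0 2 + u 2 2 + u 3 2) +
            (u 0 3 + u 2 3 + u 3 3))) fun p q => f (g.1 p) * f (g.1 q) := fun g => by
        beta_reduce; ring
      simp only [e, Finset.sum_add_distrib, Finset.sum_sub_distrib, ← Finset.mul_sum]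
      change (S a a + S b a + S c a) + (S a b + S b b + S c b) +
            (S a c + S b c + S c c) - 2 * ((S a 0 + S b 0 + S c 0) + (S a 2 + S b 2 + S c 2) +
            (S a 3 + S b 3 + S c 3)) + ((S 0 0 + S 2 0 + S 3 0) + (S 0 2 + S 2 2 + S 3 2) +
            (S 0 3 + S 2 3 + S 3 3)) = 0
      rw [h4, h4, h4, h4, h4, h4, h0, h0, h0]
      ring
    have := (Finset.sum_eq_zero_iff_of_nonneg fun _ _ => sq_nonneg _).1 this 1 (Finset.mem_univ _)
    exact sub_eq_zero.1 (pow_eq_zero_iff two_ne_zero |>.1 this)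
  · have h5 : ∀ p, ∑ q, S p q * h q = k * S 0 0 := fun p => by
      have : S 0 0 = S p p := by rw [hS p p]; simp [ty]
      rw [this]
      simp only [S, Finset.sum_mul, Finset.mul_sum]
      rw [Finset.sum_comm]
      refine Finset.sum_congr rfl fun g _ => ?_
      simp only [mul_assoc]
      rw [← Finset.mul_sum, H']
      by_cases h1 : g.1 p ∈ A <;> simp [f, h1]
    have h6 : ∀ a b c, adj a b = true → adj a c = true → adj b c = true →
        (S 0 0 + S 0 2 - 2 * S 0 1) * (h a + h b + h c) =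
          3 * (k * S 0 0) - (S 0 2 + 2 * S 0 1) * ∑ q, h q := by
      intro a b c h1 h2 h3
      have ne : ∀ p q, adj p q = true → p ≠ q := by decide +kernel
      have e1 : ∑ q, (if q = a ∨ q = b ∨ q = c then 1 else 0) * h q = h a + h b + h c := by
        have : ∀ q, (if q = a ∨ q = b ∨ q = c then 1 else 0) * h q = (if q = a then h q else 0) +
            (if q = b then h q else 0) + if q = c then h q else 0 := fun q => by
          have := ne _ _ h1
          have := ne _ _ h2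
          have := ne _ _ h3
          grind
        simp [this, Finset.sum_add_distrib]
      have e2 : ∑ q, (S a q + S b q + S c q) * h q = 3 * (k * S 0 0) := by
        simp only [add_mul, Finset.sum_add_distrib, h5]; ring
      simp only [hT a b c h1 h2 h3, add_mul _ (_ * _), mul_assoc, Finset.sum_add_distrib,
        ← Finset.mul_sum, e1] at e2
      linarith
    refine Or.inr (fin B (h 0 + h 2 + h 3) fun a b c h1 h2 h3 => mul_left_cancel₀ hl ?_)
    exact (h6 a b c h1 h2 h3).trans (h6 0 2 3 (by decide) (by decide) (by decide)).symm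

end Pool.Agent.H.MP_a3c043_al
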